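import Pool.Agent.Q132.FU.A

set_option autoImplicit false

/-!
# A bound for the correlations of a multiplicative function by its dilated correlations
-/

namespace Q132.FU

open Finset Filter Topology MeasureTheory
open Pool.Agent.W257.FS Pool.Agent.TH668.Gen

lemma bdd_pm {ι : Type*} (C : Finset ι) {u : ι → ℕ → ℝ} (hu : ∀ i n, u i n = 1 ∨ u i n = -1) :
    Bdd (fun n => ∏ i ∈ C, u i n) :=
  ⟨1, fun n => bdd_prod C u (fun i _ n => by rcases hu i n with h | h <;> rw [h] <;> simp) n⟩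

lemma prod_pm {ι : Type*} (C : Finset ι) {u : ι → ℝ} (hu : ∀ i, u i = 1 ∨ u i = -1) :
    |∏ i ∈ C, u i| = 1 := by
  rw [abs_prod]
  exact prod_eq_one fun i _ => by rcases hu i with h | h <;> rw [h] <;> simp

lemma bdd_ind (q m : ℕ) : Bdd (fun n => if q ∣ n + m then (1 : ℝ) else 0) :=
  ⟨1, fun n => by by_cases h : q ∣ n + m <;> simp [h]⟩

section core

variable (𝓤 : Ultrafilter ℕ) (h𝓤 : (𝓤 : Filter ℕ) ≤ atTop)

include h𝓤

lemma Lam_dvd (q : ℕ) (hq : 1 ≤ q) (m : ℕ) :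
    Lam 𝓤 (fun n => if q ∣ n + m then (1 : ℝ) else 0) = 1 / q := by
  have h1 := Lam_shift 𝓤 h𝓤 (u := fun n => if q ∣ n then (1 : ℝ) else 0) (bdd_ind q 0) m
  have h2 := Lam_dil 𝓤 h𝓤 (Bdd.const 1) q hq
  rw [Lam_const 𝓤 h𝓤] at h2
  exact h1.trans h2

/-- the correlation of the dilated tuple along the multiples of `q` -/
lemma dil_close {g : ℕ → ℝ} (hg : SignMul g) (hv : ∀ n, g n = 1 ∨ g n = -1) (C : Finset ℕ) {q : ℕ}
    (hq : q.Prime) (s : ℕ) :
    |Lam 𝓤 (fun n => (if q ∣ n then (1 : ℝ) else 0) * ∏ c ∈ C, g (n + q * (c + s))) -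
      g q ^ #C * Lam 𝓤 (fun n => ∏ c ∈ C, g (n + c)) / q| ≤ 2 * #C / q ^ 2 := by
  have hq1 : 1 ≤ q := hq.one_lt.le
  have hq0 : (0 : ℝ) < q := by exact_mod_cast hq1
  set v : ℕ → ℝ := fun n => ∏ c ∈ C, g (q * (n + c + s)) with hvd
  have hvb : Bdd v := bdd_pm C fun i n => hv _
  have hub : Bdd (fun n => ∏ c ∈ C, g (n + c)) := bdd_pm C fun i n => hv _
  have e1 : (fun n => (if q ∣ n then (1 : ℝ) else 0) * ∏ c ∈ C, g (n + q * (c + s))) =
      fun n => if q ∣ n then v (n / q) else 0 := by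
    funext n
    by_cases hd : q ∣ n
    · rw [if_pos hd, if_pos hd, one_mul]
      obtain ⟨k, rfl⟩ := hd
      rw [Nat.mul_div_cancel_left _ hq1]
      simp only [hvd]
      refine prod_congr rfl fun c _ => ?_
      congr 1
      ring
    · rw [if_neg hd, if_neg hd, zero_mul]
  rw [e1, Lam_dil 𝓤 h𝓤 hvb q hq1, ← sub_div, abs_div, abs_of_pos hq0]
  have e2 : g q ^ #C * Lam 𝓤 (fun n => ∏ c ∈ C, g (n + c)) =
      Lam 𝓤 (fun n => g q ^ #C * ∏ c ∈ C, g (n + s + c)) := by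
    rw [Lam_smul 𝓤 h𝓤 (hub.shift s), Lam_shift 𝓤 h𝓤 hub s]
  have hwb : Bdd (fun n => g q ^ #C * ∏ c ∈ C, g (n + s + c)) := (Bdd.const _).mul (hub.shift s)
  have e3 : Lam 𝓤 v - g q ^ #C * Lam 𝓤 (fun n => ∏ c ∈ C, g (n + c)) =
      Lam 𝓤 (fun n => v n + (-1) * (g q ^ #C * ∏ c ∈ C, g (n + s + c))) := by
    rw [Lam_add 𝓤 h𝓤 hvb ((Bdd.const _).mul hwb), Lam_smul 𝓤 h𝓤 hwb, e2]
    ring
  have hdb : Bdd (fun n => v n + (-1) * (g q ^ #C * ∏ c ∈ C, g (n + s + c))) :=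
    hvb.add ((Bdd.const _).mul hwb)
  have hib : Bdd (fun n => ∑ c ∈ C, 2 * (if q ∣ n + (c + s) then (1 : ℝ) else 0)) :=
    Bdd.sum C fun c => (Bdd.const 2).mul (bdd_ind q (c + s))
  have h4 : Lam 𝓤 (fun n => ∑ c ∈ C, 2 * (if q ∣ n + (c + s) then (1 : ℝ) else 0)) = 2 * #C / q := by
    rw [Lam_sum 𝓤 h𝓤 C fun c => (Bdd.const 2).mul (bdd_ind q (c + s))]
    rw [sum_congr rfl fun c _ => by
      rw [Lam_smul 𝓤 h𝓤 (bdd_ind q (c + s)), Lam_dvd 𝓤 h𝓤 q hq1]]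
    rw [sum_const, nsmul_eq_mul]
    ring
  have key : ∀ n, 1 ≤ n → |v n + (-1) * (g q ^ #C * ∏ c ∈ C, g (n + s + c))| ≤
      ∑ c ∈ C, 2 * (if q ∣ n + (c + s) then (1 : ℝ) else 0) := by
    intro n _
    by_cases hd : ∃ c ∈ C, q ∣ n + (c + s)
    · obtain ⟨c, hc, hd⟩ := hd
      have h5 : (2 : ℝ) ≤ ∑ c ∈ C, 2 * (if q ∣ n + (c + s) then (1 : ℝ) else 0) := by
        refine le_trans ?_ (single_le_sum (f := fun c => 2 * (if q ∣ n + (c + s) then (1 : ℝ) else 0))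
          (fun i _ => by positivity) hc)
        simp only [if_pos hd]
        norm_num
      refine le_trans ?_ h5
      have h6 : |v n| = 1 := prod_pm C fun i => hv _
      have h7 : |(-1) * (g q ^ #C * ∏ c ∈ C, g (n + s + c))| = 1 := by
        rw [abs_mul, abs_mul, prod_pm C fun i => hv _, abs_pow]
        rcases hv q with h | h <;> rw [h] <;> simp
      calc _ ≤ |v n| + |(-1) * (g q ^ #C * ∏ c ∈ C, g (n + s + c))| := abs_add_le _ _
        _ = 2 := by rw [h6, h7]; norm_num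
    · push Not at hd
      have h5 : v n = g q ^ #C * ∏ c ∈ C, g (n + s + c) := by
        simp only [hvd]
        rw [← prod_const, ← prod_mul_distrib]
        refine prod_congr rfl fun c hc => ?_
        rw [← hg.mul q (n + s + c) ((Nat.Prime.coprime_iff_not_dvd hq).2 (by
          have := hd c hc
          rwa [show n + (c + s) = n + s + c by ring] at this))]
        congr 1
        ring
      rw [h5, neg_one_mul, add_neg_cancel, abs_zero]
      exact sum_nonneg fun c _ => by positivity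
  have h8 : |Lam 𝓤 (fun n => v n + (-1) * (g q ^ #C * ∏ c ∈ C, g (n + s + c)))| ≤ 2 * #C / q := by
    rw [← h4, abs_le]
    constructor
    · have h9 := Lam_mono 𝓤 h𝓤 ((Bdd.const (-1)).mul hib) hdb (fun n hn => by
        have := (abs_le.1 (key n hn)).1
        rw [neg_one_mul]
        exact this)
      rw [Lam_smul 𝓤 h𝓤 hib, neg_one_mul] at h9
      exact h9
    · exact Lam_mono 𝓤 h𝓤 hdb hib (fun n hn => (abs_le.1 (key n hn)).2)
  rw [← e3] at h8
  rw [show (2 : ℝ) * #C / q ^ 2 = 2 * #C / q / q by rw [div_div, sq]]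
  exact div_le_div_of_nonneg_right h8 hq0.le

/-- the bound -/
theorem core {g : ℕ → ℝ} (hg : SignMul g) (hv : ∀ n, g n = 1 ∨ g n = -1) (C : Finset ℕ) {q : ℕ}
    (hq : q.Prime) (T : Finset ℕ) (hT : T.Nonempty) :
    |Lam 𝓤 (fun n => ∏ c ∈ C, g (n + c))| ≤ 2 * #C / q + √(q * (Lam 𝓤 (fun n =>
      (∑ s ∈ T, ∏ c ∈ C, g (n + q * (c + s))) * (∑ s ∈ T, ∏ c ∈ C, g (n + q * (c + s)))) / #T ^ 2)) := by
  have hq1 : 1 ≤ q := hq.one_lt.le
  have hq0 : (0 : ℝ) < q := by exact_mod_cast hq1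
  have hT0 : (0 : ℝ) < #T := by exact_mod_cast hT.card_pos
  set a := Lam 𝓤 (fun n => ∏ c ∈ C, g (n + c)) with ha
  set H : ℕ → ℝ := fun n => ∑ s ∈ T, ∏ c ∈ C, g (n + q * (c + s)) with hH
  set I : ℕ → ℝ := fun n => if q ∣ n then (1 : ℝ) else 0 with hI
  have hIb : Bdd I := bdd_ind q 0
  have hwb : ∀ s : ℕ, Bdd (fun n => ∏ c ∈ C, g (n + q * (c + s))) := fun s => bdd_pm C fun i n => hv _
  have hHb : Bdd H := Bdd.sum T hwb
  set B := Lam 𝓤 (fun n => H n * H n) with hB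
  have h1 : Lam 𝓤 (fun n => I n * H n) = ∑ s ∈ T, Lam 𝓤 (fun n => I n * ∏ c ∈ C, g (n + q * (c + s))) := by
    rw [← Lam_sum 𝓤 h𝓤 T fun s => hIb.mul (hwb s)]
    congr 1
    funext n
    simp only [hH]
    rw [mul_sum]
  have h2 : |Lam 𝓤 (fun n => I n * H n) - #T * (g q ^ #C * a / q)| ≤ #T * (2 * #C / q ^ 2) := by
    rw [h1]
    have : ∑ s ∈ T, Lam 𝓤 (fun n => I n * ∏ c ∈ C, g (n + q * (c + s))) - #T * (g q ^ #C * a / q) =
        ∑ s ∈ T, (Lam 𝓤 (fun n => I n * ∏ c ∈ C, g (n + q * (c + s))) - g q ^ #C * a / q) := by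
      rw [sum_sub_distrib, sum_const, nsmul_eq_mul]
    rw [this]
    refine (abs_sum_le_sum_abs _ _).trans ((sum_le_sum fun s _ => dil_close 𝓤 h𝓤 hg hv C hq s).trans ?_)
    rw [sum_const, nsmul_eq_mul]
  have h3 : Lam 𝓤 (fun n => I n * H n) ^ 2 ≤ 1 / q * B := by
    have h4 := Lam_cs 𝓤 h𝓤 hIb hHb
    have h5 : Lam 𝓤 (fun n => I n * I n) = 1 / q := by
      have := Lam_dvd 𝓤 h𝓤 q hq1 0
      rw [← this]
      congr 1
      funext n
      simp only [hI, add_zero]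
      by_cases h : q ∣ n <;> simp [h]
    rwa [h5] at h4
  set L := Lam 𝓤 (fun n => I n * H n) with hL
  have h6 : |g q ^ #C * a / q| = |a| / q := by
    rw [abs_div, abs_mul, abs_of_pos hq0, abs_pow]
    rcases hv q with h | h <;> rw [h] <;> simp
  have h7 : #T * (|a| / q) ≤ |L| + #T * (2 * #C / q ^ 2) := by
    have h8 : #T * (|a| / q) = |#T * (g q ^ #C * a / q)| := by rw [abs_mul, h6, abs_of_pos hT0]
    rw [h8]
    have h9 := abs_sub_abs_le_abs_sub (#T * (g q ^ #C * a / q)) L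
    rw [abs_sub_comm] at h9
    linarith
  have h10 : |a| - 2 * #C / q ≤ q * |L| / #T := by
    rw [le_div_iff₀ hT0]
    have h11 : #T * |a| ≤ q * |L| + #T * (2 * #C / q) := by
      have h12 := mul_le_mul_of_nonneg_left h7 hq0.le
      have e1 : (q : ℝ) * (#T * (|a| / q)) = #T * |a| := by field_simp
      have e2 : (q : ℝ) * (|L| + #T * (2 * #C / q ^ 2)) = q * |L| + #T * (2 * #C / q) := by field_simp
      rwa [e1, e2] at h12
    nlinarith
  have h13 : q * |L| / #T ≤ √(q * (B / #T ^ 2)) := by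
    apply Real.le_sqrt_of_sq_le
    have e1 : (q * |L| / #T) ^ 2 = q ^ 2 * L ^ 2 / #T ^ 2 := by
      rw [div_pow, mul_pow, sq_abs]
    rw [e1, ← mul_div_assoc]
    apply div_le_div_of_nonneg_right _ (by positivity)
    calc (q : ℝ) ^ 2 * L ^ 2 ≤ q ^ 2 * (1 / q * B) := mul_le_mul_of_nonneg_left h3 (by positivity)
      _ = q * B := by field_simp
  linarith

/-- one-sided bounds for the pairs -/
theorem core_zero {g : ℕ → ℝ} (hg : SignMul g) (hv : ∀ n, g n = 1 ∨ g n = -1) (C : Finset ℕ)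
    (h : ∀ δ : ℝ, 0 < δ → ∀ Q : ℕ, ∃ q, Q ≤ q ∧ q.Prime ∧ ∃ T : Finset ℕ, q ≤ δ * #T ∧
      ∀ s ∈ T, ∀ t ∈ T, s < t →
      q * Lam 𝓤 (fun n => (∏ c ∈ C, g (n + q * (c + s))) * ∏ c ∈ C, g (n + q * (c + t))) ≤ δ) :
    Lam 𝓤 (fun n => ∏ c ∈ C, g (n + c)) = 0 := by
  set a := Lam 𝓤 (fun n => ∏ c ∈ C, g (n + c)) with ha
  by_contra hne
  have ha0 : 0 < |a| := abs_pos.2 hne
  obtain ⟨Q, hQ⟩ := exists_nat_gt (4 * #C / |a|)
  obtain ⟨q, hqQ, hq, T, hTq, hpair⟩ := h (|a| ^ 2 / 16) (by positivity) Q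
  have hq1 : 1 ≤ q := hq.one_lt.le
  have hq0 : (0 : ℝ) < q := by exact_mod_cast hq1
  have h1 : 2 * #C / q < |a| / 2 := by
    have : (Q : ℝ) ≤ q := by exact_mod_cast hqQ
    rw [div_lt_iff₀ ha0] at hQ
    rw [div_lt_iff₀ hq0]
    nlinarith
  set δ : ℝ := |a| ^ 2 / 16 with hδ
  have hδ0 : 0 < δ := by positivity
  have hT0 : (0 : ℝ) < #T := by
    by_contra hcon
    have : (#T : ℝ) = 0 := le_antisymm (not_lt.1 hcon) (Nat.cast_nonneg _)
    rw [this, mul_zero] at hTq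
    linarith
  have hTne : T.Nonempty := by
    rw [← card_pos]
    exact_mod_cast hT0
  have h2 := core 𝓤 h𝓤 hg hv C hq T hTne
  rw [← ha] at h2
  have hwb : ∀ s : ℕ, Bdd (fun n => ∏ c ∈ C, g (n + q * (c + s))) := fun s => bdd_pm C fun i n => hv _
  have h3 : Lam 𝓤 (fun n => (∑ s ∈ T, ∏ c ∈ C, g (n + q * (c + s))) *
      (∑ s ∈ T, ∏ c ∈ C, g (n + q * (c + s)))) ≤ #T * (1 + #T * (δ / q)) := by
    have e1 : (fun n => (∑ s ∈ T, ∏ c ∈ C, g (n + q * (c + s))) *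
      (∑ s ∈ T, ∏ c ∈ C, g (n + q * (c + s)))) = fun n => ∑ s ∈ T, ∑ t ∈ T,
        (∏ c ∈ C, g (n + q * (c + s))) * ∏ c ∈ C, g (n + q * (c + t)) := by
      funext n
      rw [sum_mul_sum]
    rw [e1, Lam_sum 𝓤 h𝓤 T fun s => Bdd.sum T fun t => (hwb s).mul (hwb t)]
    have e2 : ∀ s ∈ T, Lam 𝓤 (fun n => ∑ t ∈ T,
        (∏ c ∈ C, g (n + q * (c + s))) * ∏ c ∈ C, g (n + q * (c + t))) ≤ 1 + #T * (δ / q) := by
      intro s hs
      rw [Lam_sum 𝓤 h𝓤 T fun t => (hwb s).mul (hwb t), ← add_sum_erase T _ hs]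
      have e3 : Lam 𝓤 (fun n => (∏ c ∈ C, g (n + q * (c + s))) * ∏ c ∈ C, g (n + q * (c + s))) = 1 := by
        have e4 : (fun n => (∏ c ∈ C, g (n + q * (c + s))) * ∏ c ∈ C, g (n + q * (c + s))) =
            fun _ => (1 : ℝ) := by
          funext n
          rw [← abs_mul_abs_self, prod_pm C fun i => hv _, mul_one]
        rw [e4, Lam_const 𝓤 h𝓤]
      have e5 : ∑ t ∈ T.erase s, Lam 𝓤 (fun n => (∏ c ∈ C, g (n + q * (c + s))) *
          ∏ c ∈ C, g (n + q * (c + t))) ≤ ∑ t ∈ T.erase s, δ / q := by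
        apply sum_le_sum
        intro t ht
        rw [mem_erase] at ht
        rw [le_div_iff₀ hq0, mul_comm]
        rcases lt_or_gt_of_ne ht.1 with h4 | h4
        · have := hpair t ht.2 s hs h4
          refine le_trans (le_of_eq ?_) this
          congr 2
          funext n
          ring
        · exact hpair s hs t ht.2 h4
      have e6 : ∑ t ∈ T.erase s, δ / q ≤ #T * (δ / q) := by
        rw [sum_const, nsmul_eq_mul]
        apply mul_le_mul_of_nonneg_right _ (by positivity)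
        exact_mod_cast card_le_card (erase_subset s T)
      linarith
    refine (sum_le_sum e2).trans ?_
    rw [sum_const, nsmul_eq_mul]
  have h4 : √(q * (Lam 𝓤 (fun n => (∑ s ∈ T, ∏ c ∈ C, g (n + q * (c + s))) *
      (∑ s ∈ T, ∏ c ∈ C, g (n + q * (c + s)))) / #T ^ 2)) < |a| / 2 := by
    rw [Real.sqrt_lt' (by positivity)]
    have h5 : q * (Lam 𝓤 (fun n => (∑ s ∈ T, ∏ c ∈ C, g (n + q * (c + s))) *
      (∑ s ∈ T, ∏ c ∈ C, g (n + q * (c + s)))) / (#T : ℝ) ^ 2) ≤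
        q * ((#T * (1 + #T * (δ / q))) / #T ^ 2) := by
      apply mul_le_mul_of_nonneg_left _ hq0.le
      exact div_le_div_of_nonneg_right h3 (by positivity)
    refine h5.trans_lt ?_
    have h6 : (q : ℝ) * ((#T * (1 + #T * (δ / q))) / #T ^ 2) = q / #T + δ := by field_simp
    have h7 : (q : ℝ) / #T ≤ δ := by rwa [div_le_iff₀ hT0]
    rw [h6]
    have h8 : 0 < |a| ^ 2 := by positivity
    have h9 : (|a| / 2) ^ 2 = |a| ^ 2 / 4 := by ring
    rw [h9]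
    linarith
  linarith

end core

end Q132.FU
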