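import Pool.Agent.Q132.FU.B

set_option autoImplicit false

/-!
# Furstenberg systems along a filter
-/

namespace Q132.FU

open Finset Filter Topology MeasureTheory
open Pool.Agent.W257.FS Pool.Agent.TH668.Gen

/-- vanishing correlations along a filter: weak convergence to the Bernoulli measure -/
theorem weak_of_corr {f : ℕ → ℝ} (hs : SignMul f) (hf : ∀ n, f n = 1 ∨ f n = -1) {𝓕 : Filter ℕ}
    (h𝓕 : 𝓕 ≤ atTop) (hc : ∀ H : Finset ℕ, H.Nonempty → Tendsto (Corr f H) 𝓕 (nhds 0))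
    (F : (ℤ → ℝ) → ℝ) (hFc : Continuous F) (hFb : ∃ C, ∀ x, |F x| ≤ C) :
    Tendsto (fun N => logAvg f F N) 𝓕 (nhds (∫ x, F x ∂bern)) := by
  classical
  refine weak hs h𝓕 (fun L b => ?_) F hFc hFb
  have e1 : ∀ N : ℕ, LF (fun _ : Fin 1 => f) (fun j : Fin L => (j : ℕ)) (fun j _ => sgn (b j)) N =
      ∑ T : Finset (Fin L), (1 / 2 ^ L) * (∏ j ∈ T, sgn (b j)) *
        Corr f (T.image (fun j : Fin L => (j : ℕ))) N := by
    intro N
    unfold LF Corr
    rw [sum_filter]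
    have e2 : ∀ n ∈ Ioc 0 N, (if (∀ (j : Fin L) (_ : Fin 1), f (n + (j : ℕ)) = sgn (b j)) then
        1 / (n : ℝ) else 0) = ∑ T : Finset (Fin L), (1 / 2 ^ L) * (∏ j ∈ T, sgn (b j)) *
        ((∏ h ∈ T.image (fun j : Fin L => (j : ℕ)), f (n + h)) / n) := by
      intro n _
      have e3 : (if (∀ (j : Fin L) (_ : Fin 1), f (n + (j : ℕ)) = sgn (b j)) then
          1 / (n : ℝ) else 0) = (if (∀ (j : Fin L) (_ : Fin 1), f (n + (j : ℕ)) = sgn (b j)) then
          (1 : ℝ) else 0) * (1 / n) := by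
        split_ifs <;> ring
      rw [e3, ind_eq hf b n, mul_sum, sum_mul]
      refine sum_congr rfl fun T _ => ?_
      ring
    rw [sum_congr rfl e2, sum_comm, sum_div]
    refine sum_congr rfl fun T _ => ?_
    rw [← mul_sum, Icc_Ioc, mul_div_assoc]
  have e4 : (1 / 2 ^ L : ℝ) = ∑ T : Finset (Fin L), (1 / 2 ^ L) * (∏ j ∈ T, sgn (b j)) *
      (if T = ∅ then 1 else 0) := by
    rw [sum_eq_single ∅]
    · simp
    · intro T _ hT
      rw [if_neg hT, mul_zero]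
    · intro h
      exact absurd (mem_univ _) h
  rw [e4]
  refine Tendsto.congr (fun N => (e1 N).symm) (tendsto_finsetSum _ fun T _ => ?_)
  refine Tendsto.const_mul _ ?_
  by_cases hT : T = ∅
  · rw [if_pos hT, hT]
    refine (harm_tendsto.mono_left h𝓕).congr fun N => ?_
    unfold Corr
    rw [Icc_Ioc]
    simp
  · rw [if_neg hT]
    exact hc _ ((nonempty_iff_ne_empty.2 hT).image _)

/-- the value at zero set to one -/
noncomputable def fix (f : ℕ → ℝ) (n : ℕ) : ℝ := if n = 0 then 1 else f n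

lemma fix_pos {f : ℕ → ℝ} {n : ℕ} (hn : 1 ≤ n) : fix f n = f n := by
  unfold fix
  rw [if_neg (by omega)]

lemma fix_sign {f : ℕ → ℝ} (hf : SignMul f) : SignMul (fix f) := by
  refine ⟨by rw [fix_pos le_rfl, hf.one], fun m n hmn => ?_, fun n hn => by rw [fix_pos hn]; exact hf.val n hn⟩
  rcases Nat.eq_zero_or_pos m with rfl | hm
  · have : n = 1 := by simpa using hmn
    subst this
    rw [fix_pos le_rfl, hf.one]
    simp [fix]
  rcases Nat.eq_zero_or_pos n with rfl | hn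
  · have : m = 1 := by simpa using hmn
    subst this
    rw [fix_pos le_rfl, hf.one]
    simp [fix]
  rw [fix_pos (Nat.mul_pos hm hn), fix_pos hm, fix_pos hn, hf.mul m n hmn]

lemma fix_or {f : ℕ → ℝ} (hf : SignMul f) (n : ℕ) : fix f n = 1 ∨ fix f n = -1 := by
  unfold fix
  by_cases hn : n = 0
  · simp [hn]
  · rw [if_neg hn]
    exact hf.val n (by omega)

lemma xf_fix (f : ℕ → ℝ) : xf (fix f) = xf f := by
  funext k
  unfold xf
  by_cases hk : 0 < k
  · rw [if_pos hk, if_pos hk, fix_pos (by omega)]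
  · rw [if_neg hk, if_neg hk]

lemma logAvg_fix (f : ℕ → ℝ) (F : (ℤ → ℝ) → ℝ) (N : ℕ) : logAvg (fix f) F N = logAvg f F N := by
  unfold logAvg
  rw [xf_fix]

lemma isFurst_fix (f : ℕ → ℝ) (μ : Measure (ℤ → ℝ)) : IsFurst (fix f) μ ↔ IsFurst f μ := by
  unfold IsFurst
  simp only [logAvg_fix]

section lam

variable {f : ℕ → ℝ} {μ : Measure (ℤ → ℝ)} {N : ℕ → ℕ} (hN : Tendsto N atTop atTop)
    (hlim : ∀ F : (ℤ → ℝ) → ℝ, Continuous F → (∃ C, ∀ x, |F x| ≤ C) →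
      Tendsto (fun i => logAvg f F (N i)) atTop (nhds (∫ x, F x ∂μ)))
    (𝓤 : Ultrafilter ℕ) (h𝓤 : (𝓤 : Filter ℕ) ≤ map N atTop)

include hN hlim h𝓤

lemma int_eq {F : (ℤ → ℝ) → ℝ} (hF : Continuous F) (hb : ∃ C, ∀ x, |F x| ≤ C) :
    ∫ x, F x ∂μ = Lam 𝓤 (fun n => F (fun k => xf f (k + n))) := by
  symm
  have h1 : Bdd (fun n : ℕ => F (fun k => xf f (k + n))) := by
    obtain ⟨C, hC⟩ := hb
    exact ⟨C, fun n => hC _⟩
  apply Lam_eq 𝓤 (h𝓤.trans hN) h1
  have h2 : Tendsto (logAvg f F) (map N atTop) (nhds (∫ x, F x ∂μ)) := tendsto_map'_iff.2 (hlim F hF hb)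
  exact h2.mono_left h𝓤

lemma ae_pm [IsProbabilityMeasure μ] (hf : SignMul f) : ∀ᵐ x ∂μ, ∀ k, x k = 1 ∨ x k = -1 := by
  rw [ae_all_iff]
  intro k
  have hFc : Continuous (fun x : ℤ → ℝ => min 1 |x k ^ 2 - 1|) := by fun_prop
  have hF0 : ∀ x : ℤ → ℝ, 0 ≤ min 1 |x k ^ 2 - 1| := fun x => le_min zero_le_one (abs_nonneg _)
  have hFb : ∀ x : ℤ → ℝ, |min 1 (|x k ^ 2 - 1|)| ≤ 1 := fun x => by
    rw [abs_of_nonneg (hF0 x)]
    exact min_le_left _ _
  have h1 := int_eq hN hlim 𝓤 h𝓤 hFc ⟨1, hFb⟩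
  have hub : Bdd (fun n : ℕ => min 1 |xf f (k + n) ^ 2 - 1|) := ⟨1, fun n => hFb (fun k => xf f (k + n))⟩
  have h2 : Lam 𝓤 (fun n : ℕ => min 1 |xf f (k + n) ^ 2 - 1|) = 0 := by
    have e0 := Lam_shift 𝓤 (h𝓤.trans hN) hub (k.natAbs + 1)
    rw [← e0]
    have e : (fun n : ℕ => min 1 |xf f (k + ((n + (k.natAbs + 1) : ℕ) : ℤ)) ^ 2 - 1|) = fun _ => (0 : ℝ) := by
      funext n
      have e1 : xf f (k + ((n + (k.natAbs + 1) : ℕ) : ℤ)) = 1 ∨
          xf f (k + ((n + (k.natAbs + 1) : ℕ) : ℤ)) = -1 := by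
        unfold xf
        rw [if_pos (by omega)]
        exact hf.val _ (by omega)
      rcases e1 with h | h <;> rw [h] <;> norm_num
    rw [e, Lam_const 𝓤 (h𝓤.trans hN)]
  have h1' : ∫ x : ℤ → ℝ, min 1 |x k ^ 2 - 1| ∂μ = 0 := h1.trans h2
  have hint : Integrable (fun x : ℤ → ℝ => min 1 |x k ^ 2 - 1|) μ := by
    refine Integrable.of_bound hFc.aestronglyMeasurable 1 (Eventually.of_forall fun x => ?_)
    rw [Real.norm_eq_abs]
    exact hFb x
  have h3 := (integral_eq_zero_iff_of_nonneg hF0 hint).1 h1'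
  filter_upwards [h3] with x hx
  have h4 : min 1 |x k ^ 2 - 1| = 0 := hx
  have h5 : |x k ^ 2 - 1| = 0 := by
    rcases min_choice 1 |x k ^ 2 - 1| with h | h
    · rw [h] at h4
      norm_num at h4
    · rw [h] at h4
      exact h4
  rw [abs_eq_zero, sub_eq_zero] at h5
  have h6 : (x k - 1) * (x k + 1) = 0 := by linear_combination h5
  rcases mul_eq_zero.1 h6 with h | h
  · left; linarith
  · right; linarith

end lam

end Q132.FU
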