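import Pool.Agent.Q132.FU.C
import Pool.Agent.TH668.Gen.G

set_option autoImplicit false

/-!
# One-sided criteria for the Furstenberg systems of a multiplicative function
-/

namespace Q132.FU

open Finset Filter Topology MeasureTheory
open Pool.Agent.W257.FS Pool.Agent.TH668.Gen

/-- the product of the coordinates with the indices `q (c + s)`, `c ∈ C` -/
noncomputable def co (q : ℕ) (C : Finset ℕ) (s : ℕ) (x : ℤ → ℝ) : ℝ :=
  ∏ c ∈ C, x ((q * (c + s) : ℕ) : ℤ)

/-- the same with the truncated coordinates -/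
noncomputable def cf (q : ℕ) (C : Finset ℕ) (s : ℕ) (x : ℤ → ℝ) : ℝ :=
  ∏ c ∈ C, cl (x ((q * (c + s) : ℕ) : ℤ))

lemma co_cont (q : ℕ) (C : Finset ℕ) (s : ℕ) : Continuous (co q C s) :=
  continuous_finsetProd _ fun _ _ => continuous_apply _

lemma cf_cont (q : ℕ) (C : Finset ℕ) (s : ℕ) : Continuous (cf q C s) :=
  continuous_finsetProd _ fun _ _ => cl_cont.comp (continuous_apply _)

lemma cf_abs (q : ℕ) (C : Finset ℕ) (s : ℕ) (x : ℤ → ℝ) : |cf q C s x| ≤ 1 := by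
  unfold cf
  rw [abs_prod]
  exact prod_le_one (fun _ _ => abs_nonneg _) fun _ _ => cl_abs _

lemma cf_co {q : ℕ} {C : Finset ℕ} {s : ℕ} {x : ℤ → ℝ} (hx : ∀ k, x k = 1 ∨ x k = -1) :
    co q C s x = cf q C s x := by
  unfold co cf
  refine prod_congr rfl fun c _ => ?_
  rw [cl_or]
  rcases hx ((q * (c + s) : ℕ) : ℤ) with h | h <;> rw [h] <;> simp

lemma Lam_congr {𝓤 : Ultrafilter ℕ} {u v : ℕ → ℝ} (h : ∀ n, 1 ≤ n → u n = v n) : Lam 𝓤 u = Lam 𝓤 v := by
  unfold Lam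
  have : LA u = LA v := by
    funext N
    unfold LA
    congr 1
    exact sum_congr rfl fun n hn => by rw [h n (mem_Icc.1 hn).1]
  rw [this]

lemma cf_xf {f : ℕ → ℝ} (hf : SignMul f) (q : ℕ) (C : Finset ℕ) (s : ℕ) {n : ℕ} (hn : 1 ≤ n) :
    cf q C s (fun k => xf f (k + n)) = ∏ c ∈ C, fix f (n + q * (c + s)) := by
  unfold cf
  refine prod_congr rfl fun c _ => ?_
  have e1 : xf f (((q * (c + s) : ℕ) : ℤ) + n) = fix f (n + q * (c + s)) := by
    rw [fix_pos (by omega)]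
    unfold xf
    rw [if_pos (by omega)]
    congr 1
    omega
  show cl (xf f (((q * (c + s) : ℕ) : ℤ) + n)) = _
  rw [e1, cl_or]
  rcases fix_or hf (n + q * (c + s)) with h | h <;> rw [h] <;> simp

section lam

variable {f : ℕ → ℝ} {μ : Measure (ℤ → ℝ)} {N : ℕ → ℕ} (hf : SignMul f) (hN : Tendsto N atTop atTop)
    (hlim : ∀ F : (ℤ → ℝ) → ℝ, Continuous F → (∃ C, ∀ x, |F x| ≤ C) →
      Tendsto (fun i => logAvg f F (N i)) atTop (nhds (∫ x, F x ∂μ)))
    (𝓤 : Ultrafilter ℕ) (h𝓤 : (𝓤 : Filter ℕ) ≤ map N atTop) [IsProbabilityMeasure μ]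

include hf hN hlim h𝓤

lemma int_one (C : Finset ℕ) :
    ∫ x, ∏ c ∈ C, x (c : ℤ) ∂μ = Lam 𝓤 (fun n => ∏ c ∈ C, fix f (n + c)) := by
  have h1 := int_eq hN hlim 𝓤 h𝓤 (cf_cont 1 C 0) ⟨1, cf_abs 1 C 0⟩
  have h2 : ∫ x, ∏ c ∈ C, x (c : ℤ) ∂μ = ∫ x, cf 1 C 0 x ∂μ := by
    apply integral_congr_ae
    filter_upwards [ae_pm hN hlim 𝓤 h𝓤 hf] with x hx
    rw [← cf_co hx]
    unfold co
    refine prod_congr rfl fun c _ => ?_
    rw [one_mul, add_zero]
  rw [h2, h1]
  apply Lam_congr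
  intro n hn
  rw [cf_xf hf 1 C 0 hn]
  simp

lemma int_pair (q : ℕ) (C : Finset ℕ) (s t : ℕ) : ∫ x, co q C s x * co q C t x ∂μ =
    Lam 𝓤 (fun n => (∏ c ∈ C, fix f (n + q * (c + s))) * ∏ c ∈ C, fix f (n + q * (c + t))) := by
  have h1 := int_eq hN hlim 𝓤 h𝓤 (F := fun x => cf q C s x * cf q C t x)
    ((cf_cont q C s).mul (cf_cont q C t)) ⟨1, fun x => by
      rw [abs_mul]
      exact mul_le_one₀ (cf_abs q C s x) (abs_nonneg _) (cf_abs q C t x)⟩
  have h2 : ∫ x, co q C s x * co q C t x ∂μ = ∫ x, cf q C s x * cf q C t x ∂μ := by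
    apply integral_congr_ae
    filter_upwards [ae_pm hN hlim 𝓤 h𝓤 hf] with x hx
    rw [cf_co hx, cf_co hx]
  rw [h2, h1]
  apply Lam_congr
  intro n hn
  rw [cf_xf hf q C s hn, cf_xf hf q C t hn]

lemma int_shift (q : ℕ) (C : Finset ℕ) {s t : ℕ} (hst : s ≤ t) :
    ∫ x, co q C 0 x * co q C (t - s) x ∂μ = ∫ x, co q C s x * co q C t x ∂μ := by
  rw [int_pair hf hN hlim 𝓤 h𝓤, int_pair hf hN hlim 𝓤 h𝓤]
  have hb : Bdd (fun n => (∏ c ∈ C, fix f (n + q * (c + 0))) * ∏ c ∈ C, fix f (n + q * (c + (t - s)))) :=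
    (bdd_pm C fun i n => fix_or hf _).mul (bdd_pm C fun i n => fix_or hf _)
  rw [← Lam_shift 𝓤 (h𝓤.trans hN) hb (q * s)]
  congr 1
  funext n
  congr 1
  · refine prod_congr rfl fun c _ => ?_
    congr 1
    ring
  · refine prod_congr rfl fun c _ => ?_
    congr 1
    obtain ⟨k, rfl⟩ := Nat.exists_eq_add_of_le hst
    rw [Nat.add_sub_cancel_left]
    ring

lemma int_sq (q : ℕ) (C T : Finset ℕ) : ∫ x, ((∑ s ∈ T, co q C s x) / #T) ^ 2 ∂μ =
    Lam 𝓤 (fun n => (∑ s ∈ T, ∏ c ∈ C, fix f (n + q * (c + s))) *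
      (∑ s ∈ T, ∏ c ∈ C, fix f (n + q * (c + s)))) / #T ^ 2 := by
  have hb : ∀ x, |∑ s ∈ T, cf q C s x| ≤ #T := by
    intro x
    refine (abs_sum_le_sum_abs _ _).trans ((sum_le_sum fun s _ => cf_abs q C s x).trans ?_)
    rw [sum_const, nsmul_eq_mul, mul_one]
  have h1 := int_eq hN hlim 𝓤 h𝓤 (F := fun x => (∑ s ∈ T, cf q C s x) * (∑ s ∈ T, cf q C s x))
    ((continuous_finsetSum _ fun s _ => cf_cont q C s).mul
      (continuous_finsetSum _ fun s _ => cf_cont q C s)) ⟨#T * #T, fun x => by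
      rw [abs_mul]
      exact mul_le_mul (hb x) (hb x) (abs_nonneg _) (Nat.cast_nonneg _)⟩
  have h2 : ∫ x, ((∑ s ∈ T, co q C s x) / #T) ^ 2 ∂μ =
      ∫ x, 1 / (#T : ℝ) ^ 2 * ((∑ s ∈ T, cf q C s x) * (∑ s ∈ T, cf q C s x)) ∂μ := by
    apply integral_congr_ae
    filter_upwards [ae_pm hN hlim 𝓤 h𝓤 hf] with x hx
    simp only [cf_co hx]
    ring
  rw [h2, integral_const_mul, h1, one_div, inv_mul_eq_div]
  congr 1
  apply Lam_congr
  intro n hn
  simp only [cf_xf hf q C _ hn]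

end lam

/-- the bound for a Furstenberg system -/
theorem furst_bound {f : ℕ → ℝ} (hf : SignMul f) {μ : Measure (ℤ → ℝ)} (hμ : IsFurst f μ)
    (C : Finset ℕ) {q : ℕ} (hq : q.Prime) {T : Finset ℕ} (hT : T.Nonempty) :
    |∫ x, ∏ c ∈ C, x (c : ℤ) ∂μ| ≤
      2 * #C / q + √(q * ∫ x, ((∑ s ∈ T, co q C s x) / #T) ^ 2 ∂μ) := by
  obtain ⟨hμp, N, hN, hlim⟩ := hμ
  set 𝓤 : Ultrafilter ℕ := Ultrafilter.of (map N atTop) with h𝓤
  have hle : (𝓤 : Filter ℕ) ≤ map N atTop := Ultrafilter.of_le _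
  rw [int_one hf hN hlim 𝓤 hle, int_sq hf hN hlim 𝓤 hle]
  exact core 𝓤 (hle.trans hN) (fix_sign hf) (fix_or hf) C hq T hT

/-- the criterion for a Furstenberg system -/
theorem furst_crit {f : ℕ → ℝ} (hf : SignMul f) {μ : Measure (ℤ → ℝ)} (hμ : IsFurst f μ)
    (h : ∀ C : Finset ℕ, C.Nonempty → ∀ δ : ℝ, 0 < δ → ∀ Q : ℕ, ∃ q, Q ≤ q ∧ q.Prime ∧
      ∃ T : Finset ℕ, q ≤ δ * #T ∧ ∀ s ∈ T, ∀ t ∈ T, s < t →
        q * ∫ x, co q C 0 x * co q C (t - s) x ∂μ ≤ δ) : μ = bern := by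
  obtain ⟨hμp, N, hN, hlim⟩ := hμ
  have h1 : ∀ C : Finset ℕ, C.Nonempty → Tendsto (Corr (fix f) C) (map N atTop) (nhds 0) := by
    intro C hC
    rw [tendsto_iff_ultrafilter]
    intro 𝓤 hle
    have h2 : Lam 𝓤 (fun n => ∏ c ∈ C, fix f (n + c)) = 0 := by
      apply core_zero 𝓤 (hle.trans hN) (fix_sign hf) (fix_or hf) C
      intro δ hδ Q
      obtain ⟨q, hQ, hq, T, hT, hp⟩ := h C hC δ hδ Q
      refine ⟨q, hQ, hq, T, hT, fun s hs t ht hst => ?_⟩
      have h3 := hp s hs t ht hst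
      rwa [int_shift hf hN hlim 𝓤 hle q C hst.le, int_pair hf hN hlim 𝓤 hle] at h3
    have h3 := Lam_tendsto 𝓤 (hle.trans hN) (u := fun n => ∏ c ∈ C, fix f (n + c))
      (bdd_pm C fun i n => fix_or hf _)
    rw [h2] at h3
    exact h3
  apply ext_of_forall_integral_eq_of_IsFiniteMeasure
  intro F
  have hb : ∃ C, ∀ x, |F x| ≤ C := ⟨‖F‖, fun x => by
    rw [← Real.norm_eq_abs]; exact F.norm_coe_le_norm x⟩
  have h4 := weak_of_corr (fix_sign hf) (fix_or hf) hN h1 F F.continuous hb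
  have h5 : Tendsto (fun i => logAvg (fix f) F (N i)) atTop (nhds (∫ x, F x ∂bern)) :=
    tendsto_map'_iff.1 h4
  simp only [logAvg_fix] at h5
  exact tendsto_nhds_unique (hlim F F.continuous hb) h5

/-- the pairs for the Bernoulli measure -/
theorem bern_pair {C : Finset ℕ} (hC : C.Nonempty) {q l : ℕ} (hq : 1 ≤ q) (hl : 1 ≤ l) :
    ∫ x, co q C 0 x * co q C l x ∂bern = 0 := by
  classical
  set A := C.image (fun c => q * (c + 0)) with hA
  set B := C.image (fun c => q * (c + l)) with hB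
  have hne : (symmDiff A B).Nonempty := by
    set m := C.min' hC with hm
    refine ⟨q * m, ?_⟩
    rw [mem_symmDiff]
    left
    constructor
    · rw [hA, mem_image]
      exact ⟨m, C.min'_mem hC, by ring⟩
    · rw [hB, mem_image]
      rintro ⟨c, hc, he⟩
      have h1 : m ≤ c := C.min'_le c hc
      have h2 : c + l = m := Nat.eq_of_mul_eq_mul_left hq he
      omega
  rw [← int_FH hne]
  apply integral_congr_ae
  filter_upwards [bern_ae] with x hx
  have hcl : ∀ k : ℤ, cl (x k) = x k := fun k => cl_or (by rcases hx k with h | h <;> rw [h] <;> simp)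
  have hinj : ∀ l : ℕ, Set.InjOn (fun c => q * (c + l)) (C : Set ℕ) := by
    intro l a _ b _ hab
    have := Nat.eq_of_mul_eq_mul_left hq hab
    omega
  have e1 : co q C 0 x = ∏ h ∈ A, x (h : ℤ) := by
    rw [hA, prod_image (hinj 0)]
    rfl
  have e2 : co q C l x = ∏ h ∈ B, x (h : ℤ) := by
    rw [hB, prod_image (hinj l)]
    rfl
  rw [e1, e2, prod_mul_symmDiff (a := fun h : ℕ => x (h : ℤ)) fun n => hx _]
  unfold FH
  exact prod_congr rfl fun h _ => (hcl _).symm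

/-- the coordinates with indices divisible by `q` -/
def sub (q : ℕ) (x : ℤ → ℝ) : ℤ → ℝ := fun k => x (q * k)

lemma sub_meas (q : ℕ) : Measurable (sub q) := measurable_pi_lambda _ fun _ => measurable_pi_apply _

lemma bern_sub {q : ℕ} (hq : 1 ≤ q) : bern.map (sub q) = bern := by
  classical
  unfold bern
  apply Measure.eq_infinitePi
  intro s t ht
  rw [Measure.map_apply (sub_meas q) (MeasurableSet.pi s.countable_toSet fun i _ => ht i)]
  have hinj : Function.Injective (fun k : ℤ => (q : ℤ) * k) := by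
    intro a b hab
    have : (q : ℤ) ≠ 0 := by
      have : (0 : ℤ) < q := by exact_mod_cast hq
      omega
    exact mul_left_cancel₀ this hab
  have e : sub q ⁻¹' (Set.pi s t) = Set.pi (s.image (fun k : ℤ => (q : ℤ) * k) : Finset ℤ)
      (fun j => t (j / q)) := by
    ext x
    simp only [Set.mem_preimage, Set.mem_pi, Finset.mem_coe, mem_image, forall_exists_index, and_imp]
    have hd : ∀ k : ℤ, (q : ℤ) * k / q = k := fun k =>
      Int.mul_ediv_cancel_left k (by have : (0 : ℤ) < q := by exact_mod_cast hq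
                                     omega)
    constructor
    · rintro h j k hk rfl
      rw [hd]
      exact h k hk
    · intro h k hk
      have := h _ k hk rfl
      rwa [hd] at this
  rw [e, Measure.infinitePi_pi _ fun i _ => ht _, prod_image hinj.injOn]
  refine prod_congr rfl fun k _ => ?_
  rw [Int.mul_ediv_cancel_left k (by have : (0 : ℤ) < q := by exact_mod_cast hq
                                     omega)]

/-- the pairs are seen by the coordinates with indices divisible by `q` -/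
lemma pair_of_sub {μ : Measure (ℤ → ℝ)} {q : ℕ} (hq : 1 ≤ q) (h : μ.map (sub q) = bern) {C : Finset ℕ}
    (hC : C.Nonempty) {l : ℕ} (hl : 1 ≤ l) : ∫ x, co q C 0 x * co q C l x ∂μ = 0 := by
  have h1 := bern_pair hC le_rfl hl
  rw [← h, integral_map (f := fun x => co 1 C 0 x * co 1 C l x) (sub_meas q).aemeasurable
    ((co_cont 1 C 0).mul (co_cont 1 C l)).aestronglyMeasurable] at h1
  rw [← h1]
  have e : ∀ (l : ℕ) (x : ℤ → ℝ), co q C l x = co 1 C l (sub q x) := by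
    intro l x
    unfold co sub
    refine prod_congr rfl fun c _ => ?_
    congr 1
    push_cast
    ring
  simp only [e]

end Q132.FU
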