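import Pool.Agent.Q132.FU.D

set_option autoImplicit false

/-!
# One-sided criteria for the uniqueness of the Furstenberg system
-/

namespace Q132.FU

open Finset Filter Topology MeasureTheory
open Pool.Agent.W257.FS Pool.Agent.TH668.Gen

/-- the logarithmic correlation of `f` along `q C` and `q (C + l)` -/
noncomputable def pc (f : ℕ → ℝ) (q : ℕ) (C : Finset ℕ) (l N : ℕ) : ℝ :=
  (∑ n ∈ Icc 1 N, (∏ c ∈ C, f (n + q * c)) * (∏ c ∈ C, f (n + q * (c + l))) / n) / Real.log N

lemma pc_LA (f : ℕ → ℝ) (q : ℕ) (C : Finset ℕ) (l N : ℕ) : pc f q C l N =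
    LA (fun n => (∏ c ∈ C, fix f (n + q * (c + 0))) * ∏ c ∈ C, fix f (n + q * (c + l))) N := by
  unfold pc LA
  congr 1
  refine sum_congr rfl fun n hn => ?_
  have hn1 : 1 ≤ n := (mem_Icc.1 hn).1
  congr 1
  congr 1
  · refine prod_congr rfl fun c _ => ?_
    rw [fix_pos (by omega), add_zero]
  · refine prod_congr rfl fun c _ => ?_
    rw [fix_pos (by omega)]

/-- correlations vanish if every Furstenberg system is the Bernoulli system -/
theorem corr_of_furst {f : ℕ → ℝ} (hf : SignMul f) (h : ∀ μ, IsFurst f μ → μ = bern) {H : Finset ℕ}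
    (hH : H.Nonempty) : Tendsto (Corr (fix f) H) atTop (nhds 0) := by
  rw [tendsto_iff_ultrafilter]
  intro 𝓤 hle
  have h1 : Tendsto (Corr (fix f) H) 𝓤 (nhds (Lam 𝓤 (fun n => ∏ c ∈ H, fix f (n + c)))) :=
    Lam_tendsto 𝓤 hle (u := fun n => ∏ c ∈ H, fix f (n + c)) (bdd_pm H fun i n => fix_or hf _)
  set L := Lam 𝓤 (fun n => ∏ c ∈ H, fix f (n + c)) with hL
  have h2 : MapClusterPt L atTop (Corr (fix f) H) := h1.mapClusterPt.mono hle
  obtain ⟨ψ, hψ, hlim⟩ := h2.tendsto_subseq
  obtain ⟨μ, hμ, hint⟩ := exists_furst (fix_or hf) H hψ.tendsto_atTop hlim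
  rw [isFurst_fix] at hμ
  rw [h μ hμ, int_FH hH] at hint
  rwa [← hint] at h1

/-- there is a Furstenberg system -/
theorem furst_exists {f : ℕ → ℝ} (hf : SignMul f) : ∃ μ, IsFurst f μ := by
  have h1 : Tendsto (fun i => Corr (fix f) ∅ (id i)) atTop (nhds 1) := by
    refine harm_tendsto.congr fun N => ?_
    unfold Corr
    rw [Icc_Ioc]
    simp
  obtain ⟨μ, hμ, -⟩ := exists_furst (fix_or hf) ∅ tendsto_id h1
  exact ⟨μ, (isFurst_fix f μ).1 hμ⟩

/-- uniqueness -/
theorem unique_iff {f : ℕ → ℝ} (hf : SignMul f) :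
    (∀ μ, IsFurst f μ ↔ μ = bern) ↔ ∀ μ, IsFurst f μ → μ = bern := by
  refine ⟨fun h μ => (h μ).1, fun h μ => ⟨h μ, ?_⟩⟩
  rintro rfl
  obtain ⟨ν, hν⟩ := furst_exists hf
  rwa [h ν hν] at hν

/-- the one-sided criterion for the function -/
theorem fun_crit {f : ℕ → ℝ} (hf : SignMul f) : (∀ μ, IsFurst f μ ↔ μ = bern) ↔
    ∀ C : Finset ℕ, C.Nonempty → ∀ δ : ℝ, 0 < δ → ∀ Q : ℕ, ∃ q, Q ≤ q ∧ q.Prime ∧
      ∃ T : Finset ℕ, q ≤ δ * #T ∧ ∀ s ∈ T, ∀ t ∈ T, s < t →
        ∀ᶠ N in atTop, q * pc f q C (t - s) N ≤ δ := by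
  classical
  constructor
  · intro h C hC δ hδ Q
    obtain ⟨q, hQ, hq⟩ := Nat.exists_infinite_primes Q
    have hq1 : 1 ≤ q := hq.one_lt.le
    have hq0 : (0 : ℝ) < q := by exact_mod_cast hq1
    obtain ⟨M, hM⟩ := exists_nat_ge ((q : ℝ) / δ)
    refine ⟨q, hQ, hq, range M, ?_, fun s _ t _ hst => ?_⟩
    · rw [card_range]
      rw [div_le_iff₀ hδ] at hM
      linarith
    · set l := t - s with hl
      have hl1 : 1 ≤ l := by omega
      set A := C.image (fun c => q * (c + 0)) with hA
      set B := C.image (fun c => q * (c + l)) with hB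
      have hne : (symmDiff A B).Nonempty := by
        set m := C.min' hC with hm
        refine ⟨q * m, ?_⟩
        rw [mem_symmDiff]
        left
        constructor
        · rw [hA, mem_image]
          exact ⟨m, C.min'_mem hC, by ring⟩
        · rw [hB, mem_image]
          rintro ⟨c, hc, he⟩
          have h1 : m ≤ c := C.min'_le c hc
          have h2 : c + l = m := Nat.eq_of_mul_eq_mul_left hq1 he
          omega
      have hinj : ∀ l : ℕ, Set.InjOn (fun c => q * (c + l)) (C : Set ℕ) := by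
        intro l a _ b _ hab
        have := Nat.eq_of_mul_eq_mul_left hq1 hab
        omega
      have h1 := corr_of_furst hf (fun μ => (h μ).1) hne
      have h2 : ∀ N, Corr (fix f) (symmDiff A B) N = pc f q C l N := by
        intro N
        rw [pc_LA]
        unfold Corr LA
        congr 1
        refine sum_congr rfl fun n _ => ?_
        congr 1
        rw [← prod_mul_symmDiff (a := fun h => fix f (n + h)) (fun h => fix_or hf _), hA, hB,
          prod_image (hinj 0), prod_image (hinj l)]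
      have h3 : Tendsto (fun N => q * pc f q C l N) atTop (nhds (q * 0)) :=
        (h1.congr h2).const_mul _
      rw [mul_zero] at h3
      exact h3.eventually_le_const hδ
  · intro h μ
    refine furst_of_corr' hf (fun H hH => ?_) μ
    rw [tendsto_iff_ultrafilter]
    intro 𝓤 hle
    have h2 : Lam 𝓤 (fun n => ∏ c ∈ H, fix f (n + c)) = 0 := by
      apply core_zero 𝓤 hle (fix_sign hf) (fix_or hf) H
      intro δ hδ Q
      obtain ⟨q, hQ, hq, T, hT, hp⟩ := h H hH δ hδ Q
      have hq1 : 1 ≤ q := hq.one_lt.le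
      have hq0 : (0 : ℝ) < q := by exact_mod_cast hq1
      refine ⟨q, hQ, hq, T, hT, fun s hs t ht hst => ?_⟩
      have hb : Bdd (fun n => (∏ c ∈ H, fix f (n + q * (c + 0))) *
          ∏ c ∈ H, fix f (n + q * (c + (t - s)))) :=
        (bdd_pm H fun i n => fix_or hf _).mul (bdd_pm H fun i n => fix_or hf _)
      have e1 : Lam 𝓤 (fun n => (∏ c ∈ H, fix f (n + q * (c + s))) * ∏ c ∈ H, fix f (n + q * (c + t))) =
          Lam 𝓤 (fun n => (∏ c ∈ H, fix f (n + q * (c + 0))) *
          ∏ c ∈ H, fix f (n + q * (c + (t - s)))) := by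
        rw [← Lam_shift 𝓤 hle hb (q * s)]
        congr 1
        funext n
        congr 1
        · refine prod_congr rfl fun c _ => ?_
          congr 1
          ring
        · refine prod_congr rfl fun c _ => ?_
          congr 1
          obtain ⟨k, rfl⟩ := Nat.exists_eq_add_of_le hst.le
          rw [Nat.add_sub_cancel_left]
          ring
      rw [e1]
      have h4 := (Lam_tendsto 𝓤 hle hb).const_mul (q : ℝ)
      refine le_of_tendsto h4 ?_
      filter_upwards [hle (hp s hs t ht hst)] with N hN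
      rw [← pc_LA]
      exact hN
    have h3 := Lam_tendsto 𝓤 hle (u := fun n => ∏ c ∈ H, fix f (n + c))
      (bdd_pm H fun i n => fix_or hf _)
    rw [h2] at h3
    exact h3
where
  furst_of_corr' {f : ℕ → ℝ} (hf : SignMul f)
      (hc : ∀ H : Finset ℕ, H.Nonempty → Tendsto (Corr (fix f) H) atTop (nhds 0))
      (μ : Measure (ℤ → ℝ)) : IsFurst f μ ↔ μ = bern := by
    rw [← isFurst_fix]
    exact furst_of_corr (fix_sign hf) (fix_or hf) hc μ

end Q132.FU
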